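import Pool.Agent.H49.CL.Targets
import Pool.Agent.H57.CN.Basics

/-!
# Row CRS of cl_modules (MP_6ab439_lc): no merging across the boundary of a class
-/

set_option autoImplicit false
set_option linter.unusedVariables false

namespace Pool.Agent.H37.CL

open Pool.Agent.H68.BP Pool.Agent.H58.SF Pool.Agent.H53.NR
open Pool.Agent.H57.AR (tp ty Ty)
open Pool.Agent.H57.EQ (Cx)
open Pool.Agent.H57.LH (tp_iff)
open Pool.Agent.H44.KR (HB Tyi TpOn)
open Pool.Agent.H44.FB (CptC EmbC)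
open Pool.Agent.H72.CH Pool.Agent.H49.CL
open Pool.Agent.H57.CN (lv_tp tp_comp)
open Function

private theorem tpOn_range {V W J : Type} {ρ : Sig} {𝔹 : Str ρ V} (c : J → W) (x y : W → V)
    (h : tp 𝔹 (fun j => x (c j)) = tp 𝔹 (fun j => y (c j))) : TpOn 𝔹 (Set.range c) x y := by
  have h1 := tp_iff.1 h
  constructor
  · rintro _ ⟨a, rfl⟩ _ ⟨b, rfl⟩
    exact h1.1 a b
  · intro l z hz
    choose w hw using hz
    have h2 : ∀ u : W → V, (fun i => u (z i)) = fun i => u (c (w i)) := by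
      intro u
      funext i
      rw [hw i]
    rw [h2 x, h2 y]
    exact h1.2 l w

private theorem pair_eq {V W : Type} (u : W → V) (a b : W) :
    (fun i => u ((![a, b] : Fin 2 → W) i)) = ![u a, u b] := by
  funext i
  fin_cases i <;> rfl

private theorem pair_tp {V W : Type} {ρ : Sig} {𝔹 : Str ρ V} {u v : W → V}
    (h : tp 𝔹 u = tp 𝔹 v) (a b : W) : tp 𝔹 ![u a, u b] = tp 𝔹 ![v a, v b] := by
  have h1 := tp_comp h (![a, b] : Fin 2 → W)
  rw [pair_eq, pair_eq] at h1
  exact h1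

private theorem aml_pair {V W : Type} [Finite W] {ρ : Sig} {𝔹 : Str ρ V} {lv : V → V → ℕ}
    (hA : AmlC 𝔹 lv) (z : W → V) (a b : W) (p q : V)
    (h : tp 𝔹 ![z a, z b] = tp 𝔹 ![p, q]) (F : Finset V) :
    ∃ z' : W → V, tp 𝔹 z' = tp 𝔹 z ∧ z' a = p ∧ z' b = q ∧
      ∀ w, ∀ v ∈ F, ∀ j, 1 ≤ j → j ≤ lv (z' w) v →
        (j ≤ lv (z w) (z a) ∧ j ≤ lv p v) ∨ (j ≤ lv (z w) (z b) ∧ j ≤ lv q v) := by
  classical
  obtain ⟨y, hy⟩ : ∃ y : W → V, y = fun s => if s = a then p else q := ⟨_, rfl⟩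
  have hya : y a = p := by
    rw [hy]
    exact if_pos rfl
  have hyb : y b = q := by
    rw [hy]
    by_cases hba : b = a
    · have h1 : (![z a, z b] : Fin 2 → V) 0 = ![z a, z b] 1 := by
        show z a = z b
        rw [hba]
      have h2 : p = q := ((tp_iff.1 h).1 0 1).1 h1
      show (if b = a then p else q) = q
      rw [if_pos hba, h2]
    · exact if_neg hba
  have h1 : tp 𝔹 (fun i => z ((![a, b] : Fin 2 → W) i)) =
      tp 𝔹 (fun i => y ((![a, b] : Fin 2 → W) i)) := by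
    rw [pair_eq, pair_eq, hya, hyb]
    exact h
  obtain ⟨z', hz, hz1, hz2⟩ := hA W (Set.range (![a, b] : Fin 2 → W)) z y F (tpOn_range _ _ _ h1)
  refine ⟨z', hz, ?_, ?_, ?_⟩
  · rw [hz1 a ⟨0, rfl⟩, hya]
  · rw [hz1 b ⟨1, rfl⟩, hyb]
  · intro w v hv j h1j hj
    obtain ⟨c, ⟨k, hk⟩, hc1, hc2⟩ := hz2 w v hv j h1j hj
    fin_cases k
    · have hk' : a = c := hk
      rw [← hk'] at hc1 hc2
      rw [hya] at hc2
      exact Or.inl ⟨hc1, hc2⟩
    · have hk' : b = c := hk
      rw [← hk'] at hc1 hc2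
      rw [hyb] at hc2
      exact Or.inr ⟨hc1, hc2⟩

theorem pf_CRS : T_CRS := by
  classical
  intro hN V ρ σ 𝔹 m lv 𝔸 i j R hV hT hAm hRE hCmn him hji h p₀ Y Q g hjh h1h hg hA1 hA2
  have hP := hV.lev.pl
  have tr : ∀ (k : ℕ) (x y z : V), k ≤ lv x y → k ≤ lv y z → k ≤ lv x z := fun k x y z hx hy =>
    (le_min hx hy).trans (hP.ult x y z)
  have core : ∀ p ∈ Cl lv j p₀ ∩ Off lv h Y, ∀ q ∈ Out lv j p₀ ∩ Off lv j Q,
      tp 𝔹 ![p, q] ∈ R → (i ≤ lv (g p) (g q) ↔ i ≤ lv p q) := by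
    rintro p ⟨hp1, hp2⟩ q ⟨hq1, hq2⟩ hpq
    have hp1' : j ≤ lv p p₀ := hp1
    have hq1' : lv q p₀ < j := hq1
    have hlt : lv p q < j := by
      by_contra hc
      rw [not_lt] at hc
      have h2 := tr j q p p₀ (by rw [hP.sym]; exact hc) hp1'
      omega
    constructor
    swap
    · intro h2
      omega
    intro hgi
    exfalso
    obtain ⟨n, F, hF⟩ := hRE.f _ hpq
    obtain ⟨z, hz1, hz2, hz3⟩ := hCmn n F
    obtain ⟨a, b, hab⟩ := hF z hz1 hz2
    obtain ⟨z', ht, hza, hzb, hz4⟩ := aml_pair hAm z a b p q hab (Y ∪ Q ∪ {p₀})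
    have hlv : ∀ s t, lv (z' s) (z' t) = lv (z s) (z t) := fun s t => lv_tp hV ht s t
    have hlab : lv (z a) (z b) = lv p q := by rw [← hlv, hza, hzb]
    have hK1 : ∀ s, j ≤ lv (z s) (z a) → z' s ∈ Cl lv j p₀ ∩ Off lv h Y := by
      intro s hs
      have hsp : j ≤ lv (z' s) p := by rw [← hza, hlv]; exact hs
      refine ⟨tr j _ _ _ hsp hp1', ?_⟩
      intro v hv
      by_contra hc
      rw [not_lt] at hc
      rcases hz4 s v (by simp [hv]) h h1h hc with h5 | h5
      · have h6 := hp2 v hv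
        have h7 := h5.2
        omega
      · have h6 : j ≤ lv (z a) (z b) := tr j _ (z s) _ (by rw [hP.sym]; exact hs) (hjh.trans h5.1)
        omega
    have hK2 : ∀ s, lv (z s) (z a) < j → z' s ∈ Out lv j p₀ ∩ Off lv j Q := by
      intro s hs
      have hsp : lv (z' s) p < j := by rw [← hza, hlv]; exact hs
      refine ⟨?_, ?_⟩
      · show lv (z' s) p₀ < j
        by_contra hc
        rw [not_lt] at hc
        have h6 := tr j (z' s) p₀ p hc (by rw [hP.sym]; exact hp1')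
        omega
      · intro v hv
        by_contra hc
        rw [not_lt] at hc
        rcases hz4 s v (by simp [hv]) j (by omega) hc with h5 | h5
        · have h7 := h5.1
          omega
        · have h6 := hq2 v hv
          have h7 := h5.2
          omega
    have hfin := (hN V (Fin n) m lv i z (fun s => g (z' s)) Set.univ hP him ?_).2 ?_
    · have h9 := hz3 g z' hg ht
      omega
    · intro s _ t _ hst
      have hst' : i ≤ lv (z' s) (z' t) := by rw [hlv]; exact hst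
      have hR : tp 𝔹 ![z' s, z' t] ∈ R := by
        rw [pair_tp ht s t]
        exact hz2 s t
      by_cases hs : j ≤ lv (z s) (z a)
      · have h8 : j ≤ lv (z t) (z a) := tr j _ (z s) _ (by rw [hP.sym]; omega) hs
        exact (hA1 _ (hK1 s hs) _ (hK1 t h8) hR).2 hst'
      · have h8 : ¬ j ≤ lv (z t) (z a) := fun h8 => hs (tr j _ (z t) _ (by omega) h8)
        exact (hA2 _ (hK2 s (not_le.1 hs)) _ (hK2 t (not_le.1 h8)) hR).2 hst'
    · refine ⟨a, Set.mem_univ _, b, Set.mem_univ _, ?_, ?_⟩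
      · show i ≤ lv (g (z' a)) (g (z' b))
        rw [hza, hzb]
        exact hgi
      · rw [hlab]
        omega
  intro x hx y hy hxy
  rcases hx with hx | hx <;> rcases hy with hy | hy
  · exact hA1 x hx y hy hxy
  · exact core x hx y hy hxy
  · rw [hP.sym (g x) (g y), hP.sym x y]
    exact core y hy x hx (hRE.sym x y hxy)
  · exact hA2 x hx y hy hxy

end Pool.Agent.H37.CL
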