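import Pool.Agent.H88.CL.Basic

/-!
# Closing lemma on the torus: row FST (the fast regime)
-/

namespace Pool.Agent.H37.CL

open Pool.Agent.H88.CL Set Function Topology Metric Filter

theorem pf_FST (h : T_HLV) : T_FST := by
  intro d ε hε
  obtain ⟨C, hC1, hC⟩ := h d
  obtain ⟨e, he⟩ : ∃ e : ℝ, e = min ε 1 := ⟨_, rfl⟩
  have he0 : 0 < e := by rw [he]; exact lt_min hε one_pos
  have he1 : e ≤ 1 := by rw [he]; exact min_le_right _ _
  have heε : e ≤ ε := by rw [he]; exact min_le_left _ _
  have hC0 : 0 < C := by linarith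
  obtain ⟨a, ha⟩ : ∃ a : ℝ, a = C / e := ⟨_, rfl⟩
  have ha0 : 0 < a := by rw [ha]; positivity
  have hae : a * e = C := by rw [ha]; field_simp
  have ha1 : 1 ≤ a := by
    rw [ha, le_div_iff₀ he0]
    linarith
  obtain ⟨t, ht⟩ : ∃ t : ℝ, t = 1 / (64 * a ^ 2) := ⟨_, rfl⟩
  have ht0 : 0 < t := by rw [ht]; positivity
  have hta : a ^ 2 * t = 1 / 64 := by
    rw [ht]
    field_simp
  have ht1 : t ≤ 1 / 64 := by
    have h2 : 1 ≤ a ^ 2 := one_le_pow₀ ha1
    rw [← hta]
    exact le_mul_of_one_le_left ht0.le h2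
  have key : ∀ (F F' : E d → E d), IsLift d F F' → ∀ m : ℕ, 1 ≤ m → ∀ y : E d,
      Near (4 * a * t ^ m) (F^[m] y) y →
      ∃ (U : E d → E d) (q : E d) (m' : ℕ), Pert d e e e U ∧ 1 ≤ m' ∧
        ‖q - y‖ ≤ 4 * a * (3 * t - 2 * t ^ m) ∧ (Gm F U)^[m'] q - q ∈ Lat d := by
    intro F F' hF m
    induction m using Nat.strong_induction_on with
    | _ m ih =>
      intro hm y hy
      obtain ⟨z, hz, hy⟩ := hy
      have hq : (F^[m] y - z) - F^[m] y ∈ Lat d := by
        have : (F^[m] y - z) - F^[m] y = -z := by abel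
        rw [this]
        exact neg_mem hz
      have hD : ‖(F^[m] y - z) - y‖ ≤ 4 * a * t ^ m := by
        have : (F^[m] y - z) - y = F^[m] y - y - z := by abel
        rw [this]
        exact hy
      have htm : t ^ m ≤ t := by
        calc t ^ m ≤ t ^ 1 := pow_le_pow_of_le_one ht0.le (by linarith) hm
          _ = t := pow_one t
      have htm0 : 0 < t ^ m := pow_pos ht0 m
      have hX : C / e * ‖(F^[m] y - z) - y‖ ≤ 4 * a ^ 2 * t ^ m := by
        rw [← ha]
        calc a * ‖(F^[m] y - z) - y‖ ≤ a * (4 * a * t ^ m) :=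
              mul_le_mul_of_nonneg_left hD ha0.le
          _ = 4 * a ^ 2 * t ^ m := by ring
      have hX16 : C / e * ‖(F^[m] y - z) - y‖ ≤ 1 / 16 := by
        refine hX.trans ?_
        calc 4 * a ^ 2 * t ^ m ≤ 4 * a ^ 2 * t :=
              mul_le_mul_of_nonneg_left htm (by positivity)
          _ = 4 * (a ^ 2 * t) := by ring
          _ = 1 / 16 := by rw [hta]; norm_num
      rcases hC F F' hF e y (F^[m] y - z) m he0 he1 hm hq hX16 with
        ⟨U, hU, hper⟩ | ⟨y', m', hm', h2m, hyy, hnear⟩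
      · refine ⟨U, F^[m] y - z, m, hU, hm, hD.trans ?_, hper⟩
        exact mul_le_mul_of_nonneg_left (by linarith) (by positivity)
      · have hs : 2 * Real.sqrt (C / e * ‖(F^[m] y - z) - y‖) ≤ 4 * a * t ^ m' := by
          have h1 : Real.sqrt (C / e * ‖(F^[m] y - z) - y‖) ≤ 2 * a * t ^ m' := by
            rw [Real.sqrt_le_iff]
            refine ⟨by positivity, hX.trans ?_⟩
            have h2 : t ^ m ≤ t ^ (2 * m') := pow_le_pow_of_le_one ht0.le (by linarith) h2m
            calc 4 * a ^ 2 * t ^ m ≤ 4 * a ^ 2 * t ^ (2 * m') :=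
                  mul_le_mul_of_nonneg_left h2 (by positivity)
              _ = (2 * a * t ^ m') ^ 2 := by
                  rw [mul_comm 2 m', pow_mul]
                  ring
          linarith
        obtain ⟨U, q, m'', hU, hm'', hq', hper⟩ := ih m' (by omega) hm' y' (hnear.mono hs)
        refine ⟨U, q, m'', hU, hm'', ?_, hper⟩
        have h3 : q - y = (q - y') + (y' - y) := by abel
        rw [h3]
        refine (norm_add_le _ _).trans ((add_le_add hq' (hyy.trans hs)).trans ?_)
        have h4 : 2 * t ^ m ≤ t ^ m' := by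
          have h5 : t ^ m ≤ t ^ (2 * m') := pow_le_pow_of_le_one ht0.le (by linarith) h2m
          have h6 : t ^ (2 * m') = t ^ m' * t ^ m' := by
            rw [two_mul, pow_add]
          have h7 : t ^ m' ≤ t := by
            calc t ^ m' ≤ t ^ 1 := pow_le_pow_of_le_one ht0.le (by linarith) hm'
              _ = t := pow_one t
          have h8 : 0 < t ^ m' := pow_pos ht0 m'
          have h9 : t ^ m' * t ^ m' ≤ t ^ m' * (1 / 64) :=
            mul_le_mul_of_nonneg_left (h7.trans ht1) h8.le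
          linarith
        have h10 : 4 * a * (3 * t - 2 * t ^ m') + 4 * a * t ^ m' = 4 * a * (3 * t - t ^ m') := by
          ring
        rw [h10]
        exact mul_le_mul_of_nonneg_left (by linarith) (by positivity)
  refine ⟨t, 4 * a, ht0, by linarith, by positivity, fun F F' hF y m hm hy => ?_⟩
  obtain ⟨U, q, m', hU, hm', hq, hper⟩ := key F F' hF m hm y hy
  refine ⟨U, q, m', hU.mono heε heε heε, hm', hq.trans ?_, hper⟩
  have htm0 : 0 < t ^ m := pow_pos ht0 m
  have h1 : 4 * a * (3 * t - 2 * t ^ m) ≤ 4 * a * (3 * t) :=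
    mul_le_mul_of_nonneg_left (by linarith) (by positivity)
  have h2 : 4 * a * (3 * t) * a = 3 / 16 := by
    calc 4 * a * (3 * t) * a = 12 * (a ^ 2 * t) := by ring
      _ = 3 / 16 := by rw [hta]; norm_num
  have h3 : 4 * a * (3 * t) ≤ e := by
    have h4 : 4 * a * (3 * t) * a ≤ e * a := by
      rw [h2, mul_comm e a, hae]
      linarith
    exact le_of_mul_le_mul_right h4 ha0
  linarith

end Pool.Agent.H37.CL
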