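import Pool.Agent.H49.CL.Targets
import Pool.Agent.H57.CN.Basics

/-!
# Row INI of cl_modules (MP_6ab439_lc): classes of the `i`-th equivalence are not split
-/

set_option autoImplicit false
set_option linter.unusedVariables false

namespace Pool.Agent.H37.CL

open Pool.Agent.H68.BP Pool.Agent.H58.SF Pool.Agent.H53.NR
open Pool.Agent.H57.AR (tp ty Ty)
open Pool.Agent.H57.EQ (Cx)
open Pool.Agent.H57.LH (tp_iff)
open Pool.Agent.H44.KR (HB Tyi TpOn)
open Pool.Agent.H44.FB (CptC EmbC)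
open Pool.Agent.H72.CH Pool.Agent.H49.CL
open Pool.Agent.H57.CN (lv_tp tp_comp)
open Function

private theorem tpOn_range {V W J : Type} {ρ : Sig} {𝔹 : Str ρ V} (c : J → W) (x y : W → V)
    (h : tp 𝔹 (fun j => x (c j)) = tp 𝔹 (fun j => y (c j))) : TpOn 𝔹 (Set.range c) x y := by
  have h1 := tp_iff.1 h
  constructor
  · rintro _ ⟨a, rfl⟩ _ ⟨b, rfl⟩
    exact h1.1 a b
  · intro l z hz
    choose w hw using hz
    have h2 : ∀ u : W → V, (fun i => u (z i)) = fun i => u (c (w i)) := by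
      intro u
      funext i
      rw [hw i]
    rw [h2 x, h2 y]
    exact h1.2 l w

private theorem pair_eq {V W : Type} (u : W → V) (a b : W) :
    (fun i => u ((![a, b] : Fin 2 → W) i)) = ![u a, u b] := by
  funext i
  fin_cases i <;> rfl

private theorem pair_tp {V W : Type} {ρ : Sig} {𝔹 : Str ρ V} {u v : W → V}
    (h : tp 𝔹 u = tp 𝔹 v) (a b : W) : tp 𝔹 ![u a, u b] = tp 𝔹 ![v a, v b] := by
  have h1 := tp_comp h (![a, b] : Fin 2 → W)
  rw [pair_eq, pair_eq] at h1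
  exact h1

private theorem aml_pair {V W : Type} [Finite W] {ρ : Sig} {𝔹 : Str ρ V} {lv : V → V → ℕ}
    (hA : AmlC 𝔹 lv) (z : W → V) (a b : W) (p q : V)
    (h : tp 𝔹 ![z a, z b] = tp 𝔹 ![p, q]) (F : Finset V) :
    ∃ z' : W → V, tp 𝔹 z' = tp 𝔹 z ∧ z' a = p ∧ z' b = q ∧
      ∀ w, ∀ v ∈ F, ∀ j, 1 ≤ j → j ≤ lv (z' w) v →
        (j ≤ lv (z w) (z a) ∧ j ≤ lv p v) ∨ (j ≤ lv (z w) (z b) ∧ j ≤ lv q v) := by
  classical
  obtain ⟨y, hy⟩ : ∃ y : W → V, y = fun s => if s = a then p else q := ⟨_, rfl⟩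
  have hya : y a = p := by
    rw [hy]
    exact if_pos rfl
  have hyb : y b = q := by
    rw [hy]
    by_cases hba : b = a
    · have h1 : (![z a, z b] : Fin 2 → V) 0 = ![z a, z b] 1 := by
        show z a = z b
        rw [hba]
      have h2 : p = q := ((tp_iff.1 h).1 0 1).1 h1
      show (if b = a then p else q) = q
      rw [if_pos hba, h2]
    · exact if_neg hba
  have h1 : tp 𝔹 (fun i => z ((![a, b] : Fin 2 → W) i)) =
      tp 𝔹 (fun i => y ((![a, b] : Fin 2 → W) i)) := by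
    rw [pair_eq, pair_eq, hya, hyb]
    exact h
  obtain ⟨z', hz, hz1, hz2⟩ := hA W (Set.range (![a, b] : Fin 2 → W)) z y F (tpOn_range _ _ _ h1)
  refine ⟨z', hz, ?_, ?_, ?_⟩
  · rw [hz1 a ⟨0, rfl⟩, hya]
  · rw [hz1 b ⟨1, rfl⟩, hyb]
  · intro w v hv j h1j hj
    obtain ⟨c, ⟨k, hk⟩, hc1, hc2⟩ := hz2 w v hv j h1j hj
    fin_cases k
    · have hk' : a = c := hk
      rw [← hk'] at hc1 hc2
      rw [hya] at hc2
      exact Or.inl ⟨hc1, hc2⟩
    · have hk' : b = c := hk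
      rw [← hk'] at hc1 hc2
      rw [hyb] at hc2
      exact Or.inr ⟨hc1, hc2⟩

theorem pf_INI : T_INI := by
  classical
  intro hN V ρ σ 𝔹 m lv 𝔸 i R hV hT hAm hRE hCmx h1 him p₀ Q g hg hEx p hp q hq hpq
  have hP := hV.lev.pl
  have tr : ∀ (k : ℕ) (x y z : V), k ≤ lv x y → k ≤ lv y z → k ≤ lv x z := fun k x y z hx hy =>
    (le_min hx hy).trans (hP.ult x y z)
  have hp1 : i ≤ lv p p₀ := hp
  have hq1 : i ≤ lv q p₀ := hq
  have hipq : i ≤ lv p q := tr i _ p₀ _ hp1 (by rw [hP.sym]; exact hq1)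
  refine ⟨fun _ => hipq, fun _ => ?_⟩
  by_contra hgi
  obtain ⟨n, F, hF⟩ := hRE.f _ hpq
  obtain ⟨k, z, ι, hz1, hz2, hz3⟩ := hCmx n F
  obtain ⟨a, b, hab⟩ := hF (fun c => z (ι c)) hz1 (fun c d => hz2 (ι c) (ι d))
  obtain ⟨z', ht, hza, hzb, hz4⟩ := aml_pair hAm z (ι a) (ι b) p q hab (Q ∪ {p₀})
  have hlv : ∀ s t, lv (z' s) (z' t) = lv (z s) (z t) := fun s t => lv_tp hV ht s t
  have hlab : i ≤ lv (z (ι a)) (z (ι b)) := by rw [← hlv, hza, hzb]; exact hipq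
  have hK : ∀ s, lv (z s) (z (ι a)) < i → z' s ∈ Out lv i p₀ ∩ Off lv i Q := by
    intro s hs
    have hsp : lv (z' s) p < i := by rw [← hza, hlv]; exact hs
    refine ⟨?_, ?_⟩
    · show lv (z' s) p₀ < i
      by_contra hc
      rw [not_lt] at hc
      have h6 := tr i (z' s) p₀ p hc (by rw [hP.sym]; exact hp1)
      omega
    · intro v hv
      by_contra hc
      rw [not_lt] at hc
      rcases hz4 s v (by simp [hv]) i h1 hc with h5 | h5
      · have h7 := h5.1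
        omega
      · have h7 := tr i _ _ _ h5.1 (by rw [hP.sym]; exact hlab)
        omega
  have hmax := hz3 a g z' hg ht (by
    rintro x ⟨s, rfl, hs⟩ y ⟨t, rfl, ht'⟩ hxy
    exact hEx _ (hK s hs) _ (hK t ht') hxy)
  have hfin := (hN V (Fin n) m lv i (fun c => g (z' (ι c))) (fun c => z (ι c))
    {c | i ≤ lv (z (ι c)) (z (ι a))} hP him ?_).2 ?_
  · omega
  · intro c hc d hd _
    have hc' : i ≤ lv (z (ι c)) (z (ι a)) := hc
    have hd' : i ≤ lv (z (ι d)) (z (ι a)) := hd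
    exact tr i _ _ _ hc' (by rw [hP.sym]; exact hd')
  · refine ⟨a, ?_, b, ?_, hlab, ?_⟩
    · show i ≤ lv (z (ι a)) (z (ι a))
      rw [hP.self]
      exact him
    · show i ≤ lv (z (ι b)) (z (ι a))
      rw [hP.sym]
      exact hlab
    · show ¬ i ≤ lv (g (z' (ι a))) (g (z' (ι b)))
      rw [hza, hzb]
      exact hgi

end Pool.Agent.H37.CL
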