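import Pool.Agent.H88.CL.Basic

/-!
# Closing lemma on the torus: row MGN
-/

namespace Pool.Agent.H37.CL

open Pool.Agent.H88.CL Set Function Topology Metric Filter

theorem pf_MGN (h : T_ITA) : T_MGN := by
  intro d L F F' hC N m b p q D θ hqp hN hθ hm hz
  by_contra hlt
  have hmN : m ≤ N := not_lt.1 hlt
  refine hN m hm hmN ⟨F^[m] p - q, hz, ?_⟩
  have hL : (1 : ℝ) ≤ L := by
    have := hC.two
    linarith
  have h1 : ‖F^[m] b - F^[m] p‖ ≤ L ^ m * ‖b - p‖ := (h d L F F' hC m).2.2.1 b p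
  have h2 : L ^ m ≤ L ^ (3 * N) := pow_le_pow_right₀ hL (by omega)
  have h3 : L ^ (2 * N) ≤ L ^ (3 * N) := pow_le_pow_right₀ hL (by omega)
  have h4 : (1 : ℝ) ≤ L ^ (3 * N) := one_le_pow₀ hL
  have h5 : (0 : ℝ) < L ^ (2 * N) := by positivity
  have hD : 0 ≤ D := by
    have := (norm_nonneg _).trans hqp
    exact nonneg_of_mul_nonneg_right this h5
  have h6 : 0 ≤ ‖p - b‖ := norm_nonneg _
  have h7 : F^[m] b - b - (F^[m] p - q) = (F^[m] b - F^[m] p) + (q - p) + (p - b) := by abel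
  have h8 : ‖F^[m] b - F^[m] p‖ ≤ L ^ (3 * N) * ‖p - b‖ := by
    rw [norm_sub_rev b p] at h1
    exact h1.trans (mul_le_mul_of_nonneg_right h2 h6)
  have h9 : ‖q - p‖ ≤ L ^ (3 * N) * D := hqp.trans (mul_le_mul_of_nonneg_right h3 hD)
  have h10 : ‖p - b‖ ≤ L ^ (3 * N) * ‖p - b‖ := le_mul_of_one_le_left h6 h4
  have h11 : 0 ≤ L ^ (3 * N) * D := by positivity
  rw [h7]
  refine (norm_add₃_le).trans (le_trans ?_ hθ)
  nlinarith

end Pool.Agent.H37.CL
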